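import Mathlib

/-!
Finite abelian groups of exponent 4 with a set whose sums have between 1 and 6 ordered
representations.
-/

set_option autoImplicit false

namespace Pool.Agent.RZW

/-- Pairs of elements, with the addition of Witt vectors of length 2 over a field of characteristic
2. -/
def W (F : Type) : Type := F × F

variable {F : Type} [Field F] [CharP F 2]

instance [Fintype F] : Fintype (W F) := inferInstanceAs (Fintype (F × F))

instance [DecidableEq F] : DecidableEq (W F) := inferInstanceAs (DecidableEq (F × F))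

instance : Add (W F) := ⟨fun p q => (p.1 + q.1, p.2 + q.2 + p.1 * q.1)⟩

instance : Zero (W F) := ⟨((0 : F), (0 : F))⟩

instance : Neg (W F) := ⟨fun p => (p.1, p.2 + p.1 ^ 2)⟩

instance : AddCommGroup (W F) where
  nsmul := nsmulRec
  zsmul := zsmulRec
  add_assoc p q r := by
    refine Prod.ext ?_ ?_
    · change p.1 + q.1 + r.1 = p.1 + (q.1 + r.1)
      ring
    · change p.2 + q.2 + p.1 * q.1 + r.2 + (p.1 + q.1) * r.1 =
        p.2 + (q.2 + r.2 + q.1 * r.1) + p.1 * (q.1 + r.1)
      ring
  zero_add p := by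
    refine Prod.ext ?_ ?_
    · change 0 + p.1 = p.1
      ring
    · change 0 + p.2 + 0 * p.1 = p.2
      ring
  add_zero p := by
    refine Prod.ext ?_ ?_
    · change p.1 + 0 = p.1
      ring
    · change p.2 + 0 + p.1 * 0 = p.2
      ring
  neg_add_cancel p := by
    have h2 : (2 : F) = 0 := CharTwo.two_eq_zero
    refine Prod.ext ?_ ?_
    · change p.1 + p.1 = 0
      linear_combination p.1 * h2
    · change p.2 + p.1 ^ 2 + p.2 + p.1 * p.1 = 0
      linear_combination (p.2 + p.1 ^ 2) * h2
  add_comm p q := by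
    refine Prod.ext ?_ ?_
    · change p.1 + q.1 = q.1 + p.1
      ring
    · change p.2 + q.2 + p.1 * q.1 = q.2 + p.2 + q.1 * p.1
      ring

omit [CharP F 2] in
theorem add_eq_iff (p q n : W F) : p + q = n ↔ p.1 + q.1 = n.1 ∧ p.2 + q.2 + p.1 * q.1 = n.2 :=
  Prod.ext_iff

/-- The additive map `x ^ 2 + x`. -/
def wp (F : Type) [Field F] [CharP F 2] : F →+ F where
  toFun x := x ^ 2 + x
  map_zero' := by ring
  map_add' x y := by
    have h2 : (2 : F) = 0 := CharTwo.two_eq_zero
    linear_combination x * y * h2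

theorem mem_range_wp (y : F) : y ∈ (wp F).range ↔ ∃ x : F, x ^ 2 + x = y := Iff.rfl

theorem card_ker_wp : Nat.card (wp F).ker = 2 := by
  have h2 : (2 : F) = 0 := CharTwo.two_eq_zero
  have : ((wp F).ker : Set F) = {0, 1} := by
    ext x
    simp only [SetLike.mem_coe, AddMonoidHom.mem_ker, Set.mem_insert_iff, Set.mem_singleton_iff]
    change x ^ 2 + x = 0 ↔ _
    constructor
    · intro h
      have h1 : x * (x - 1) = 0 := by linear_combination h - x * h2
      rcases mul_eq_zero.1 h1 with h | h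
      · exact Or.inl h
      · exact Or.inr (sub_eq_zero.1 h)
    · rintro (h | h)
      · rw [h]; ring
      · rw [h]; linear_combination h2
  rw [← SetLike.coe_sort_coe, this, Nat.card_coe_set_eq, Set.ncard_pair zero_ne_one]

theorem index_range_wp [Finite F] : (wp F).range.index = 2 := by
  have h1 := (wp F).ker.card_mul_index
  have h2 := (wp F).range.card_mul_index
  rw [AddSubgroup.index_ker, card_ker_wp] at h1
  have h3 : 0 < Nat.card (wp F).range := Nat.card_pos
  have h4 : Nat.card (wp F).range * (wp F).range.index = Nat.card (wp F).range * 2 := by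
    rw [h2, ← h1, mul_comm]
  exact Nat.eq_of_mul_eq_mul_left h3 h4

theorem exists_not_mem [Finite F] (hF : 2 < Nat.card F) : ∃ v : F, v ∉ (wp F).range ∧ v ≠ 1 := by
  by_contra hcon
  push Not at hcon
  have hu : ∃ u : F, u ≠ 0 ∧ u ≠ 1 := by
    by_contra h
    push Not at h
    have h1 : (Set.univ : Set F) ⊆ {0, 1} := by
      intro u _
      by_cases hu : u = 0
      · exact Or.inl hu
      · exact Or.inr (h u hu)
    have h2 := Set.ncard_le_ncard h1 (Set.toFinite _)
    rw [Set.ncard_univ, Set.ncard_pair zero_ne_one] at h2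
    omega
  obtain ⟨u, hu0, hu1⟩ := hu
  have hm : ∀ v : F, v ≠ 1 → v ∈ (wp F).range := by
    intro v hv
    by_contra h
    exact hv (hcon v h)
  have h1 : (1 : F) ∈ (wp F).range := by
    have h2 : (2 : F) = 0 := CharTwo.two_eq_zero
    have h3 := (wp F).range.add_mem (hm u hu1) (hm (u + 1) (fun h => hu0 (by
      linear_combination h)))
    have h4 : u + (u + 1) = 1 := by linear_combination u * h2
    rwa [h4] at h3
  have htop : (wp F).range = ⊤ := by
    rw [eq_top_iff]
    intro v _
    by_cases hv : v = 1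
    · rw [hv]; exact h1
    · exact hm v hv
  have := index_range_wp (F := F)
  rw [htop, AddSubgroup.index_top] at this
  omega

variable [Fintype F] [DecidableEq F]

/-- Solutions of `al * a ^ 2 + c * a = b`. -/
def sol (al c b : F) : Finset F := Finset.univ.filter fun a => al * a ^ 2 + c * a = b

theorem card_sol_le (al c b : F) (hal : al ≠ 0) : (sol al c b).card ≤ 2 := by
  have h2 : (2 : F) = 0 := CharTwo.two_eq_zero
  by_contra hcon
  push Not at hcon
  obtain ⟨x, y, z, hx, hy, hz, hxy, hxz, hyz⟩ := (Finset.two_lt_card_iff).1 hcon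
  simp only [sol, Finset.mem_filter, Finset.mem_univ, true_and] at hx hy hz
  have h3 : (x - y) * (al * (x + y) + c) = 0 := by linear_combination hx - hy
  have h4 : (x - z) * (al * (x + z) + c) = 0 := by linear_combination hx - hz
  have h5 : al * (x + y) + c = 0 := (mul_eq_zero.1 h3).resolve_left (sub_ne_zero.2 hxy)
  have h6 : al * (x + z) + c = 0 := (mul_eq_zero.1 h4).resolve_left (sub_ne_zero.2 hxz)
  have h7 : al * (y - z) = 0 := by linear_combination h5 - h6
  rcases mul_eq_zero.1 h7 with h | h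
  · exact hal h
  · exact hyz (sub_eq_zero.1 h)

theorem card_sol_zero_le (al b : F) (hal : al ≠ 0) : (sol al 0 b).card ≤ 1 := by
  rw [Finset.card_le_one]
  intro x hx y hy
  simp only [sol, Finset.mem_filter, Finset.mem_univ, true_and] at hx hy
  have h2 : (2 : F) = 0 := CharTwo.two_eq_zero
  have h3 : al * (x - y) ^ 2 = 0 := by linear_combination hx - hy + (al * y ^ 2 - al * x * y) * h2
  rcases mul_eq_zero.1 h3 with h | h
  · exact absurd h hal
  · exact sub_eq_zero.1 (pow_eq_zero_iff (two_ne_zero) |>.1 h)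

/-- The set: pairs `(a, 0)` and `(a, v a ^ 2)`. -/
def setA (v : F) : Finset (W F) :=
  Finset.univ.filter fun p => p.2 = 0 ∨ p.2 = v * p.1 ^ 2

/-- Ordered representations of `n`. -/
def reps {G : Type} [AddCommGroup G] [DecidableEq G] (A : Finset G) (n : G) : Finset (G × G) :=
  (A ×ˢ A).filter fun q => q.1 + q.2 = n

theorem mem_reps (v : F) (n p q : W F) : (p, q) ∈ reps (setA v) n ↔
    ((p.2 = 0 ∨ p.2 = v * p.1 ^ 2) ∧ (q.2 = 0 ∨ q.2 = v * q.1 ^ 2)) ∧ p + q = n := by
  simp only [reps, setA, Finset.mem_filter, Finset.mem_product, Finset.mem_univ, true_and]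

theorem reps_card_le (v : F) (n : W F) : (reps (setA v) n).card ≤
    ((sol 1 n.1 n.2).card + (sol 1 n.1 (n.2 + v * n.1 ^ 2)).card) +
      ((sol (v + 1) n.1 (n.2 + v * n.1 ^ 2)).card + (sol (v + 1) n.1 n.2).card) := by
  have h2 : (2 : F) = 0 := CharTwo.two_eq_zero
  let f : F → F → F → W F × W F := fun s t a =>
    (((a, s * a ^ 2) : F × F), ((a + n.1, t * (a + n.1) ^ 2) : F × F))
  have hsub : reps (setA v) n ⊆
      (((sol 1 n.1 n.2).image (f 0 0)) ∪ ((sol 1 n.1 (n.2 + v * n.1 ^ 2)).image (f v v))) ∪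
        (((sol (v + 1) n.1 (n.2 + v * n.1 ^ 2)).image (f 0 v)) ∪
          ((sol (v + 1) n.1 n.2).image (f v 0))) := by
    intro q hq
    obtain ⟨⟨a, b⟩, ⟨c, d⟩⟩ := q
    obtain ⟨⟨hb, hd⟩, hn⟩ := (mem_reps v n _ _).1 hq
    rw [add_eq_iff] at hn
    obtain ⟨hn1, hn2⟩ := hn
    change a + c = n.1 at hn1
    change b + d + a * c = n.2 at hn2
    have hc : c = a + n.1 := by linear_combination hn1 - a * h2
    subst hc
    simp only [Finset.mem_union, Finset.mem_image, sol, Finset.mem_filter, Finset.mem_univ,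
      true_and]
    rcases hb with hb | hb <;> rcases hd with hd | hd
    · refine Or.inl (Or.inl ⟨a, ?_, ?_⟩)
      · change b = 0 at hb
        change d = 0 at hd
        rw [hb, hd] at hn2
        linear_combination hn2
      · change b = 0 at hb
        change d = 0 at hd
        refine Prod.ext (Prod.ext rfl ?_) (Prod.ext rfl ?_)
        · change 0 * a ^ 2 = b
          rw [hb]; ring
        · change 0 * (a + n.1) ^ 2 = d
          rw [hd]; ring
    · change b = 0 at hb
      change d = v * (a + n.1) ^ 2 at hd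
      refine Or.inr (Or.inl ⟨a, ?_, ?_⟩)
      · rw [hb, hd] at hn2
        linear_combination hn2 - (v * a * n.1 + v * n.1 ^ 2) * h2
      · refine Prod.ext (Prod.ext rfl ?_) (Prod.ext rfl ?_)
        · change 0 * a ^ 2 = b
          rw [hb]; ring
        · exact hd.symm
    · change b = v * a ^ 2 at hb
      change d = 0 at hd
      refine Or.inr (Or.inr ⟨a, ?_, ?_⟩)
      · rw [hb, hd] at hn2
        linear_combination hn2
      · refine Prod.ext (Prod.ext rfl ?_) (Prod.ext rfl ?_)
        · exact hb.symm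
        · change 0 * (a + n.1) ^ 2 = d
          rw [hd]; ring
    · change b = v * a ^ 2 at hb
      change d = v * (a + n.1) ^ 2 at hd
      refine Or.inl (Or.inr ⟨a, ?_, ?_⟩)
      · rw [hb, hd] at hn2
        linear_combination hn2 - v * (a ^ 2 + a * n.1 + n.1 ^ 2) * h2
      · refine Prod.ext (Prod.ext rfl ?_) (Prod.ext rfl ?_)
        · exact hb.symm
        · exact hd.symm
  refine (Finset.card_le_card hsub).trans ((Finset.card_union_le _ _).trans ?_)
  exact Nat.add_le_add ((Finset.card_union_le _ _).trans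
    (Nat.add_le_add Finset.card_image_le Finset.card_image_le))
    ((Finset.card_union_le _ _).trans (Nat.add_le_add Finset.card_image_le Finset.card_image_le))

theorem reps_le_six (v : F) (hv : v ∉ (wp F).range) (hv1 : v ≠ 1) (n : W F) :
    (reps (setA v) n).card ≤ 6 := by
  have h2 : (2 : F) = 0 := CharTwo.two_eq_zero
  have hv2 : v + 1 ≠ 0 := fun h => hv1 (by linear_combination h - h2)
  have h := reps_card_le v n
  have h3 := card_sol_le (v + 1) n.1 (n.2 + v * n.1 ^ 2) hv2
  have h4 := card_sol_le (v + 1) n.1 n.2 hv2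
  have h5 := card_sol_le 1 n.1 n.2 one_ne_zero
  have h6 := card_sol_le 1 n.1 (n.2 + v * n.1 ^ 2) one_ne_zero
  by_cases hn : n.1 = 0
  · rw [hn] at h h5 h6
    have h7 := card_sol_zero_le 1 n.2 one_ne_zero
    have h8 := card_sol_zero_le 1 (n.2 + v * 0 ^ 2) one_ne_zero
    rw [hn] at h3 h4
    omega
  · have h7 : (sol 1 n.1 n.2).card = 0 ∨ (sol 1 n.1 (n.2 + v * n.1 ^ 2)).card = 0 := by
      by_contra hcon
      push Not at hcon
      obtain ⟨a, ha⟩ := Finset.card_pos.1 (Nat.pos_of_ne_zero hcon.1)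
      obtain ⟨b, hb⟩ := Finset.card_pos.1 (Nat.pos_of_ne_zero hcon.2)
      simp only [sol, Finset.mem_filter, Finset.mem_univ, true_and] at ha hb
      refine hv ((mem_range_wp v).2 ⟨(a + b) / n.1, ?_⟩)
      field_simp
      linear_combination ha + hb + (a * b + n.2) * h2
    omega

theorem one_le_reps (v : F) (hv : v ∉ (wp F).range) (n : W F) : 1 ≤ (reps (setA v) n).card := by
  have h2 : (2 : F) = 0 := CharTwo.two_eq_zero
  have key : (∃ a : F, a ^ 2 + n.1 * a = n.2) ∨ (∃ a : F, a ^ 2 + n.1 * a = n.2 + v * n.1 ^ 2) := by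
    by_cases hn : n.1 = 0
    · left
      obtain ⟨a, ha⟩ := FiniteField.isSquare_of_char_two (CharP.ringChar_of_prime_eq_zero
        Nat.prime_two (by exact_mod_cast h2)) n.2
      exact ⟨a, by rw [hn, ha]; ring⟩
    · have hidx := index_range_wp (F := F)
      have h3 := AddSubgroup.add_mem_iff_of_index_two hidx (a := n.2 / n.1 ^ 2) (b := v)
      by_cases h4 : n.2 / n.1 ^ 2 ∈ (wp F).range
      · left
        obtain ⟨x, hx⟩ := (mem_range_wp _).1 h4
        refine ⟨n.1 * x, ?_⟩
        rw [eq_div_iff (pow_ne_zero 2 hn)] at hx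
        linear_combination hx
      · right
        have h5 : n.2 / n.1 ^ 2 + v ∈ (wp F).range := h3.2 (by tauto)
        obtain ⟨x, hx⟩ := (mem_range_wp _).1 h5
        refine ⟨n.1 * x, ?_⟩
        have h6 : (n.2 / n.1 ^ 2 + v) * n.1 ^ 2 = n.2 + v * n.1 ^ 2 := by
          field_simp
        rw [← h6, ← hx]
        ring
  rw [Nat.one_le_iff_ne_zero, ← Nat.pos_iff_ne_zero, Finset.card_pos]
  rcases key with ⟨a, ha⟩ | ⟨a, ha⟩
  · refine ⟨(((a, 0) : F × F), ((a + n.1, 0) : F × F)), ?_⟩
    refine (mem_reps v n _ _).2 ⟨⟨Or.inl rfl, Or.inl rfl⟩, ?_⟩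
    rw [add_eq_iff]
    constructor
    · change a + (a + n.1) = n.1
      linear_combination a * h2
    · change 0 + 0 + a * (a + n.1) = n.2
      linear_combination ha
  · refine ⟨(((a, v * a ^ 2) : F × F), ((a + n.1, v * (a + n.1) ^ 2) : F × F)), ?_⟩
    refine (mem_reps v n _ _).2 ⟨⟨Or.inr rfl, Or.inr rfl⟩, ?_⟩
    rw [add_eq_iff]
    constructor
    · change a + (a + n.1) = n.1
      linear_combination a * h2
    · change v * a ^ 2 + v * (a + n.1) ^ 2 + a * (a + n.1) = n.2
      linear_combination ha + (v * a ^ 2 + v * a * n.1 + v * n.1 ^ 2) * h2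

/-- For every `j ≥ 2` there is a set with between 1 and 6 representations of every element in an
abelian group of order `4 ^ j` in which `4 g = 0` for all `g`, and `2 g = 0` only for the doubles
`g = 2 h` (that is, in `Z_4 ^ j`). -/
theorem exists_six (j : ℕ) (hj : 2 ≤ j) :
    ∃ (G : Type) (_ : AddCommGroup G) (_ : Fintype G) (_ : DecidableEq G) (A : Finset G),
      Fintype.card G = 4 ^ j ∧ (∀ g : G, g + g + (g + g) = 0) ∧
      (∀ g : G, g + g = 0 → ∃ h : G, h + h = g) ∧
      ∀ n : G, 1 ≤ ((A ×ˢ A).filter fun q => q.1 + q.2 = n).card ∧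
        ((A ×ˢ A).filter fun q => q.1 + q.2 = n).card ≤ 6 := by
  classical
  have hfact : Fact (Nat.Prime 2) := ⟨Nat.prime_two⟩
  let F := GaloisField 2 j
  have hfin : Fintype F := Fintype.ofFinite F
  have hcard : Nat.card F = 2 ^ j := GaloisField.card 2 j (by omega)
  have h2 : (2 : F) = 0 := CharTwo.two_eq_zero
  have hF : 2 < Nat.card F := by
    rw [hcard]
    calc 2 < 2 ^ 2 := by norm_num
      _ ≤ 2 ^ j := Nat.pow_le_pow_right (by norm_num) hj
  obtain ⟨v, hv, hv1⟩ := exists_not_mem (F := F) hF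
  refine ⟨W F, inferInstance, inferInstance, inferInstance, setA v, ?_, ?_, ?_, ?_⟩
  · change Fintype.card (F × F) = 4 ^ j
    rw [Fintype.card_prod, ← Nat.card_eq_fintype_card, hcard, ← mul_pow]
    norm_num
  · intro g
    refine Prod.ext ?_ ?_
    · change g.1 + g.1 + (g.1 + g.1) = 0
      linear_combination 2 * g.1 * h2
    · change g.2 + g.2 + g.1 * g.1 + (g.2 + g.2 + g.1 * g.1) + (g.1 + g.1) * (g.1 + g.1) = 0
      linear_combination (2 * g.2 + 3 * g.1 ^ 2) * h2
  · intro g hg
    rw [add_eq_iff] at hg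
    obtain ⟨-, hg2⟩ := hg
    change g.2 + g.2 + g.1 * g.1 = 0 at hg2
    have h3 : g.1 * g.1 = 0 := by linear_combination hg2 - g.2 * h2
    have h4 : g.1 = 0 := by simpa using h3
    obtain ⟨a, ha⟩ := FiniteField.isSquare_of_char_two (CharP.ringChar_of_prime_eq_zero
      Nat.prime_two (by exact_mod_cast h2)) g.2
    refine ⟨((a, 0) : F × F), ?_⟩
    rw [add_eq_iff]
    constructor
    · change a + a = g.1
      rw [h4]
      linear_combination a * h2
    · change 0 + 0 + a * a = g.2
      rw [ha]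
      ring
  · intro n
    exact ⟨one_le_reps v hv n, reps_le_six v hv hv1 n⟩

end Pool.Agent.RZW
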